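import Mathlib

/-!
The Lusin-Novikov theorem: a countable-to-one Borel map between standard Borel spaces is
injective on each of countably many Borel pieces; the classes of a countable Borel equivalence
relation are enumerated by countably many Borel maps.
-/

set_option autoImplicit false

open Set Filter Topology TopologicalSpace

namespace Pool.Agent.Lib.LusinNovikov

section ideal

variable {Z X : Type} [MeasurableSpace Z] (π : Z → X)

/-- covered by countably many Borel sets on which `π` is injective -/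
def Cov (S : Set Z) : Prop :=
  ∃ B : ℕ → Set Z, (∀ j, MeasurableSet (B j) ∧ InjOn π (B j)) ∧ S ⊆ ⋃ j, B j

variable {π}

theorem Cov.mono {S T : Set Z} (h : Cov π T) (hST : S ⊆ T) : Cov π S :=
  let ⟨B, hB, hT⟩ := h
  ⟨B, hB, hST.trans hT⟩

theorem cov_of_injOn {S : Set Z} (h : MeasurableSet S) (h' : InjOn π S) : Cov π S :=
  ⟨fun _ => S, fun _ => ⟨h, h'⟩, subset_iUnion (fun _ : ℕ => S) 0⟩

theorem cov_empty : Cov π (∅ : Set Z) := cov_of_injOn MeasurableSet.empty (injOn_empty _)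

theorem cov_iUnion {ι : Type} [Countable ι] {S : ι → Set Z} (h : ∀ i, Cov π (S i)) :
    Cov π (⋃ i, S i) := by
  cases isEmpty_or_nonempty ι with
  | inl _ => rw [iUnion_of_empty]; exact cov_empty
  | inr _ =>
    obtain ⟨e, he⟩ := exists_surjective_nat ι
    choose B hB hS using h
    refine ⟨fun n => B (e n.unpair.1) n.unpair.2, fun n => hB _ _, ?_⟩
    intro z hz
    obtain ⟨i, hi⟩ := mem_iUnion.1 hz
    obtain ⟨a, rfl⟩ := he i
    obtain ⟨j, hj⟩ := mem_iUnion.1 (hS _ hi)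
    exact mem_iUnion.2 ⟨Nat.pair a j, by simpa using hj⟩

theorem Cov.union {S T : Set Z} (h : Cov π S) (h' : Cov π T) : Cov π (S ∪ T) := by
  rw [union_eq_iUnion]
  exact cov_iUnion fun b => by cases b <;> assumption

variable [MeasurableSpace X]

variable (π) in
def Small (U : Set Z) (B : Set X) : Prop := MeasurableSet B ∧ Cov π (U ∩ π ⁻¹' B)

variable (π) in
def Pos (𝒰 : Set (Set Z)) : Prop :=
  ∀ B : Set Z → Set X, (∀ U ∈ 𝒰, Small π U (B U)) → ∃ x, ∀ U ∈ 𝒰, x ∉ B U

theorem small_iUnion {ι : Type} [Countable ι] {U : Set Z} {B : ι → Set X}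
    (h : ∀ i, Small π U (B i)) : Small π U (⋃ i, B i) := by
  refine ⟨MeasurableSet.iUnion fun i => (h i).1, ?_⟩
  rw [preimage_iUnion, inter_iUnion]
  exact cov_iUnion fun i => (h i).2

end ideal

section scheme

variable {Z X : Type} [MetricSpace Z] [SecondCountableTopology Z] [MeasurableSpace Z]
  [BorelSpace Z] [MeasurableSpace X] {π : Z → X}

theorem Pos.split (hπ : Measurable π) {U0 : Set Z} (hU0 : IsOpen U0) {𝒲 : Set (Set Z)}
    (h : Pos π (insert U0 𝒲)) {ε : ℝ} (hε : 0 < ε) :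
    ∃ V : Bool → Set Z, (∀ b, IsOpen (V b) ∧ closure (V b) ⊆ U0 ∧
      ∀ x ∈ V b, ∀ y ∈ V b, dist x y ≤ ε) ∧ Disjoint (V true) (V false) ∧
      Pos π (range V ∪ 𝒲) := by
  by_contra hcon
  let 𝓑 : Set (Set Z) := {V | V ∈ countableBasis Z ∧ closure V ⊆ U0 ∧
    ∀ x ∈ V, ∀ y ∈ V, dist x y ≤ ε}
  have h𝓑 : 𝓑.Countable := (countable_countableBasis Z).mono fun _ h => h.1
  have : Countable 𝓑 := h𝓑.to_subtype
  have hbasis : ∀ z ∈ U0, ∀ W, IsOpen W → z ∈ W → ∃ V ∈ 𝓑, z ∈ V ∧ V ⊆ W := by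
    intro z hz W hW hzW
    obtain ⟨r, hr, hrU⟩ := Metric.isOpen_iff.1 hU0 z hz
    obtain ⟨V, hV, hzV, hVs⟩ := (isBasis_countableBasis Z).exists_subset_of_mem_open
      (u := W ∩ Metric.ball z (min (r / 2) (ε / 2)))
      ⟨hzW, Metric.mem_ball_self (lt_min (half_pos hr) (half_pos hε))⟩
      (hW.inter Metric.isOpen_ball)
    refine ⟨V, ⟨hV, ?_, ?_⟩, hzV, fun w hw => (hVs hw).1⟩
    · refine Subset.trans (closure_minimal (t := Metric.closedBall z (r / 2)) ?_
        Metric.isClosed_closedBall) ((Metric.closedBall_subset_ball (half_lt_self hr)).trans hrU)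
      intro w hw
      exact Metric.mem_closedBall.2 ((Metric.mem_ball.1 (hVs hw).2).le.trans (min_le_left _ _))
    · intro x hx y hy
      have h1 := (Metric.mem_ball.1 (hVs hx).2).le.trans (min_le_right _ _)
      have h2 := (Metric.mem_ball.1 (hVs hy).2).le.trans (min_le_right _ _)
      linarith [dist_triangle_right x y z]
  let P : Type := {p : 𝓑 × 𝓑 // Disjoint p.1.1 p.2.1}
  have hP : ∀ p : P, ∃ B : Set Z → Set X,
      (∀ U, (U = p.1.1.1 ∨ U = p.1.2.1 ∨ U ∈ 𝒲) → Small π U (B U)) ∧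
      ∀ x, ∃ U, (U = p.1.1.1 ∨ U = p.1.2.1 ∨ U ∈ 𝒲) ∧ x ∈ B U := by
    intro p
    by_contra hp
    apply hcon
    refine ⟨fun b => cond b p.1.1.1 p.1.2.1, ?_, p.2, ?_⟩
    · rintro (_ | _)
      · exact ⟨isOpen_of_mem_countableBasis p.1.2.2.1, p.1.2.2.2⟩
      · exact ⟨isOpen_of_mem_countableBasis p.1.1.2.1, p.1.1.2.2⟩
    · intro B hB
      by_contra hx
      apply hp
      refine ⟨B, fun U hU => hB U ?_, fun x => ?_⟩
      · rcases hU with rfl | rfl | hU
        · exact Or.inl ⟨true, rfl⟩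
        · exact Or.inl ⟨false, rfl⟩
        · exact Or.inr hU
      · by_contra hx'
        apply hx
        refine ⟨x, fun U hU hxU => hx' ⟨U, ?_, hxU⟩⟩
        rcases hU with ⟨_ | _, rfl⟩ | hU
        · exact Or.inr (Or.inl rfl)
        · exact Or.inl rfl
        · exact Or.inr (Or.inr hU)
  choose B hB1 hB2 using hP
  let T : Set Z → Set X := fun U =>
    ⋃ p : {p : P // U = p.1.1.1 ∨ U = p.1.2.1 ∨ U ∈ 𝒲}, B p.1 U
  have hT : ∀ U, Small π U (T U) := fun U => small_iUnion fun p => hB1 p.1 U p.2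
  let C : Set X := ⋂ p : P, (T p.1.1.1 ∪ T p.1.2.1)
  have hC : MeasurableSet C := MeasurableSet.iInter fun p => (hT _).1.union (hT _).1
  have hC' : Cov π (U0 ∩ π ⁻¹' C) := by
    let R : Set Z := ⋃ V : 𝓑, (V.1 ∩ π ⁻¹' T V.1)
    have hR : Cov π R := cov_iUnion fun V => (hT V.1).2
    have hRm : MeasurableSet R := MeasurableSet.iUnion fun V =>
      (isOpen_of_mem_countableBasis V.2.1).measurableSet.inter (hπ (hT _).1)
    have hW : Cov π ((U0 ∩ π ⁻¹' C) \ R) := by
      refine cov_of_injOn ((hU0.measurableSet.inter (hπ hC)).diff hRm) ?_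
      rintro z ⟨⟨hz, hzC⟩, hzR⟩ w ⟨⟨hw, -⟩, hwR⟩ hzw
      by_contra hne
      obtain ⟨A1, A2, hA1, hA2, hz1, hw2, hd⟩ := t2_separation hne
      obtain ⟨V1, hV1, hzV, hV1s⟩ := hbasis z hz A1 hA1 hz1
      obtain ⟨V2, hV2, hwV, hV2s⟩ := hbasis w hw A2 hA2 hw2
      have := mem_iInter.1 hzC ⟨(⟨V1, hV1⟩, ⟨V2, hV2⟩), hd.mono hV1s hV2s⟩
      rcases this with h1 | h1
      · exact hzR (mem_iUnion.2 ⟨⟨V1, hV1⟩, hzV, h1⟩)
      · exact hwR (mem_iUnion.2 ⟨⟨V2, hV2⟩, hwV, by rw [mem_preimage, ← hzw]; exact h1⟩)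
    exact (hW.union hR).mono (subset_diff_union _ _)
  obtain ⟨x, hx⟩ := h (fun U => T U ∪ ⋃ _ : PLift (U = U0), C) (by
    intro U _
    have h1 : Small π U (⋃ _ : PLift (U = U0), C) := small_iUnion fun h => by
      rw [h.down]; exact ⟨hC, hC'⟩
    refine ⟨(hT U).1.union h1.1, ?_⟩
    rw [preimage_union, inter_union_distrib_left]
    exact (hT U).2.union h1.2)
  refine hx U0 (mem_insert _ _) (Or.inr (mem_iUnion.2 ⟨⟨rfl⟩, mem_iInter.2 fun p => ?_⟩))
  obtain ⟨U, hU, hxU⟩ := hB2 p x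
  have hxT : x ∈ T U := mem_iUnion.2 ⟨⟨p, hU⟩, hxU⟩
  rcases hU with rfl | rfl | hU
  · exact Or.inl hxT
  · exact Or.inr hxT
  · exact absurd (Or.inl hxT) (hx U (mem_insert_of_mem _ hU))

theorem Pos.refine (hπ : Measurable π) {ι : Type} {U : ι → Set Z} (hU : ∀ i, IsOpen (U i))
    {ε : ℝ} (hε : 0 < ε) (s : Finset ι) : ∀ 𝒲 : Set (Set Z), Pos π (U '' s ∪ 𝒲) →
    ∃ V : ι → Bool → Set Z, (∀ i ∈ s, (∀ b, IsOpen (V i b) ∧ closure (V i b) ⊆ U i ∧
      ∀ x ∈ V i b, ∀ y ∈ V i b, dist x y ≤ ε) ∧ Disjoint (V i true) (V i false)) ∧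
      Pos π ((⋃ i ∈ s, range (V i)) ∪ 𝒲) := by
  classical
  induction s using Finset.induction_on with
  | empty => exact fun 𝒲 h => ⟨fun _ _ => ∅, by simp, by simpa using h⟩
  | insert a s ha ih =>
    intro 𝒲 h
    have e1 : U '' (insert a s : Finset ι) ∪ 𝒲 = U '' s ∪ insert (U a) 𝒲 := by
      rw [Finset.coe_insert, image_insert_eq, insert_union, union_insert]
    rw [e1] at h
    obtain ⟨V, hV, hpos⟩ := ih _ h
    rw [union_insert] at hpos
    obtain ⟨W, hW, hWd, hpos'⟩ := hpos.split hπ (hU a) hε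
    have hne : ∀ i ∈ s, Function.update V a W i = V i := fun i hi =>
      Function.update_of_ne (ne_of_mem_of_not_mem hi ha) _ _
    refine ⟨Function.update V a W, ?_, ?_⟩
    · intro i hi
      rcases Finset.mem_insert.1 hi with rfl | hi
      · rw [Function.update_self]; exact ⟨hW, hWd⟩
      · rw [hne i hi]; exact hV i hi
    · rw [Finset.set_biUnion_insert, Function.update_self, union_assoc]
      have : (⋃ i ∈ s, range (Function.update V a W i)) = ⋃ i ∈ s, range (V i) :=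
        iUnion₂_congr fun i hi => by rw [hne i hi]
      rw [this]
      exact hpos'

/-- binary words of length `n` -/
def Wd : ℕ → Type
  | 0 => Unit
  | n + 1 => Wd n × Bool

instance instFintypeWd : ∀ n, Fintype (Wd n)
  | 0 => inferInstanceAs (Fintype Unit)
  | n + 1 => letI := instFintypeWd n; inferInstanceAs (Fintype (Wd n × Bool))

def path (σ : ℕ → Bool) : ∀ n, Wd n
  | 0 => ()
  | n + 1 => (path σ n, σ n)

theorem path_congr {σ τ : ℕ → Bool} : ∀ n, (∀ k < n, σ k = τ k) → path σ n = path τ n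
  | 0, _ => rfl
  | n + 1, h => by
    show (path σ n, σ n) = (path τ n, τ n)
    rw [path_congr n fun k hk => h k (Nat.lt_succ_of_lt hk), h n (Nat.lt_succ_self n)]

theorem cov_univ [CompleteSpace Z] [TopologicalSpace X] [T2Space X] [BorelSpace X]
    (hπc : Continuous π) (hfib : ∀ x, (π ⁻¹' {x}).Countable) : Cov π (univ : Set Z) := by
  have hπ : Measurable π := hπc.measurable
  by_contra hcov
  let S : ℕ → Type := fun n => {U : Wd n → Set Z // (∀ i, IsOpen (U i)) ∧ Pos π (range U)}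
  have step : ∀ n (U : S n), ∃ V : S (n + 1), ∀ i : Wd n,
      (∀ b, closure (V.1 (i, b)) ⊆ U.1 i ∧
        ∀ x ∈ V.1 (i, b), ∀ y ∈ V.1 (i, b), dist x y ≤ 1 / ((n : ℝ) + 1)) ∧
      Disjoint (V.1 (i, true)) (V.1 (i, false)) := by
    intro n U
    obtain ⟨V, hV, hpos⟩ := Pos.refine hπ U.2.1 (Nat.one_div_pos_of_nat (n := n)) Finset.univ ∅
      (by simpa using U.2.2)
    refine ⟨⟨fun p => V p.1 p.2, fun p => ((hV p.1 (Finset.mem_univ _)).1 p.2).1, ?_⟩,
      fun i => ⟨fun b => ((hV i (Finset.mem_univ _)).1 b).2, (hV i (Finset.mem_univ _)).2⟩⟩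
    convert hpos using 1
    ext W
    simp only [mem_range, Finset.mem_univ, iUnion_true, union_empty, mem_iUnion]
    exact ⟨fun ⟨p, hp⟩ => ⟨p.1, p.2, hp⟩, fun ⟨i, b, hp⟩ => ⟨(i, b), hp⟩⟩
  choose F hF using step
  have h0 : Pos π (range fun _ : Wd 0 => (univ : Set Z)) := by
    intro B hB
    by_contra hx
    apply hcov
    have h1 := (hB univ ⟨(), rfl⟩).2
    refine h1.mono fun z _ => ⟨trivial, ?_⟩
    by_contra hz
    exact hx ⟨π z, by rintro _ ⟨_, rfl⟩; exact hz⟩
  let U : ∀ n, S n := fun n => Nat.rec (motive := S) ⟨fun _ => univ, fun _ => isOpen_univ, h0⟩ F n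
  have hU : ∀ n, U (n + 1) = F n (U n) := fun _ => rfl
  have hne : ∀ n i, ((U n).1 i).Nonempty := by
    intro n i
    by_contra he
    rw [not_nonempty_iff_eq_empty] at he
    obtain ⟨x, hx⟩ := (U n).2.2 (fun W => ⋃ _ : PLift (W = ∅), univ) (fun W _ =>
      small_iUnion fun h => by
        rw [h.down]; exact ⟨MeasurableSet.univ, by simpa using cov_empty⟩)
    exact hx _ ⟨i, rfl⟩ (mem_iUnion.2 ⟨⟨he⟩, trivial⟩)
  have hsub : ∀ σ n, closure ((U (n + 1)).1 (path σ (n + 1))) ⊆ (U n).1 (path σ n) :=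
    fun σ n => ((hF n (U n) (path σ n)).1 (σ n)).1
  have hdiam : ∀ σ n, ∀ x ∈ (U (n + 1)).1 (path σ (n + 1)), ∀ y ∈ (U (n + 1)).1 (path σ (n + 1)),
      dist x y ≤ 1 / ((n : ℝ) + 1) := fun σ n => ((hF n (U n) (path σ n)).1 (σ n)).2
  have hanti : ∀ σ n m, n ≤ m → (U m).1 (path σ m) ⊆ (U n).1 (path σ n) := by
    intro σ n m h
    induction m, h using Nat.le_induction with
    | base => exact Subset.rfl
    | succ m _ ih => exact (subset_closure.trans (hsub σ m)).trans ih
  have hlim : ∀ σ, ∃ z, ∀ n, z ∈ (U n).1 (path σ n) := by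
    intro σ
    choose a ha using fun n => hne n (path σ n)
    have hc : CauchySeq (fun n => a (n + 1)) := by
      refine cauchySeq_of_le_tendsto_0 (fun n : ℕ => 1 / ((n : ℝ) + 1)) ?_
        tendsto_one_div_add_atTop_nhds_zero_nat
      intro n m N hn hm
      exact hdiam σ N _ (hanti σ (N + 1) (n + 1) (by omega) (ha (n + 1))) _
        (hanti σ (N + 1) (m + 1) (by omega) (ha (m + 1)))
    obtain ⟨z, hz⟩ := cauchySeq_tendsto_of_complete hc
    refine ⟨z, fun n => hsub σ n (mem_closure_of_tendsto hz ?_)⟩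
    filter_upwards [eventually_ge_atTop n] with m hm
    exact hanti σ (n + 1) (m + 1) (by omega) (ha (m + 1))
  choose z hz using hlim
  have hinj : Function.Injective z := by
    intro σ τ hστ
    by_contra hne'
    have hex : ∃ n, σ n ≠ τ n := Function.ne_iff.1 hne'
    classical
    have h1 := Nat.find_spec hex
    have h2 : path σ (Nat.find hex) = path τ (Nat.find hex) :=
      path_congr _ fun k hk => not_not.1 (Nat.find_min hex hk)
    generalize Nat.find hex = n at h1 h2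
    have h3 : z σ ∈ (F n (U n)).1 (path σ n, σ n) := hz σ (n + 1)
    have h4 : z τ ∈ (F n (U n)).1 (path τ n, τ n) := hz τ (n + 1)
    rw [← hστ, ← h2] at h4
    have h5 := (hF n (U n) (path σ n)).2
    cases hs : σ n <;> cases ht : τ n <;> simp only [hs, ht] at h1 h3 h4
    · exact h1 rfl
    · exact disjoint_left.1 h5 h4 h3
    · exact disjoint_left.1 h5 h3 h4
    · exact h1 rfl
  have hsmall : ∀ σ (A : Set X), IsOpen A → π (z σ) ∈ A →
      ∀ᶠ n in atTop, (U (n + 1)).1 (path σ (n + 1)) ⊆ π ⁻¹' A := by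
    intro σ A hA hzA
    obtain ⟨r, hr, hrA⟩ := Metric.isOpen_iff.1 (hA.preimage hπc) (z σ) hzA
    filter_upwards [(tendsto_one_div_add_atTop_nhds_zero_nat (𝕜 := ℝ)).eventually
      (gt_mem_nhds hr)] with n hn w hw
    exact hrA ((hdiam σ n w hw _ (hz σ (n + 1))).trans_lt hn)
  have hsame : ∀ σ τ, π (z σ) = π (z τ) := by
    intro σ τ
    by_contra hne'
    obtain ⟨A1, A2, hA1, hA2, h1, h2, hd⟩ := t2_separation hne'
    obtain ⟨n, hn1, hn2⟩ := ((hsmall σ A1 hA1 h1).and (hsmall τ A2 hA2 h2)).exists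
    have key : ∀ (W : Set Z) (A : Set X), IsOpen A →
        Small π W (⋃ _ : PLift (W ⊆ π ⁻¹' A), Aᶜ) := fun W A hA =>
      small_iUnion fun h => ⟨hA.measurableSet.compl,
        cov_empty.mono fun w hw => absurd (h.down hw.1) hw.2⟩
    obtain ⟨x, hx⟩ := (U (n + 1)).2.2 (fun W => (⋃ _ : PLift (W ⊆ π ⁻¹' A1), A1ᶜ) ∪
      ⋃ _ : PLift (W ⊆ π ⁻¹' A2), A2ᶜ) (fun W _ => by
        refine ⟨(key W A1 hA1).1.union (key W A2 hA2).1, ?_⟩
        rw [preimage_union, inter_union_distrib_left]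
        exact (key W A1 hA1).2.union (key W A2 hA2).2)
    by_cases hx1 : x ∈ A1
    · exact hx _ ⟨_, rfl⟩ (Or.inr (mem_iUnion.2 ⟨⟨hn2⟩, disjoint_left.1 hd hx1⟩))
    · exact hx _ ⟨_, rfl⟩ (Or.inl (mem_iUnion.2 ⟨⟨hn1⟩, hx1⟩))
  have hc : (univ : Set (ℕ → Bool)).Countable :=
    (hfib (π (z fun _ => true))).preimage_of_injOn (f := z) hinj.injOn |>.mono
      fun σ _ => hsame σ _
  obtain ⟨g, hg⟩ := hc.exists_eq_range univ_nonempty
  obtain ⟨n, hn⟩ : (fun k => !g k k) ∈ range g := hg ▸ mem_univ _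
  have := congrFun hn n
  simp at this

end scheme

/-- Lusin-Novikov: a countable-to-one Borel map is injective on countably many Borel pieces. -/
theorem exists_injOn_cover {Z X : Type} [MeasurableSpace Z] [StandardBorelSpace Z]
    [MeasurableSpace X] [StandardBorelSpace X] {π : Z → X} (hπ : Measurable π)
    (hfib : ∀ x, (π ⁻¹' {x}).Countable) : Cov π (univ : Set Z) := by
  let := upgradeStandardBorel X
  obtain ⟨t, hB, hP, hc⟩ : ∃ t : TopologicalSpace Z, BorelSpace Z ∧ PolishSpace Z ∧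
      Continuous π := by
    let := upgradeStandardBorel Z
    obtain ⟨t, hle, hc, ht⟩ := hπ.exists_continuous
    refine ⟨t, ?_, ht, hc⟩
    constructor
    rw [eq_borel_upgradeStandardBorel Z, MeasureTheory.borel_eq_borel_of_le ht _ hle]
    infer_instance
  let := upgradeIsCompletelyMetrizable Z
  exact cov_univ hc hfib

/-- The sections of a Borel relation with countable sections that contains the diagonal are
enumerated by Borel maps. -/
theorem exists_enum {X : Type} [MeasurableSpace X] [StandardBorelSpace X] {F : X → X → Prop}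
    (hF : MeasurableSet {p : X × X | F p.1 p.2}) (hc : ∀ x, {y | F x y}.Countable)
    (hr : ∀ x, F x x) :
    ∃ γ : ℕ → X → X, (∀ j, Measurable (γ j)) ∧ ∀ x y, F x y ↔ ∃ j, γ j x = y := by
  classical
  have := hF.standardBorel
  obtain ⟨B, hB, hcov⟩ := exists_injOn_cover (Z := {p : X × X | F p.1 p.2})
    (π := fun p => p.1.1) (measurable_fst.comp measurable_subtype_coe) (fun x => by
      refine MapsTo.countable_of_injOn (f := fun p : {p : X × X | F p.1 p.2} => p.1.2)
        (t := {y | F x y}) ?_ ?_ (hc x)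
      · rintro ⟨⟨a, b⟩, h⟩ hp
        obtain rfl : a = x := hp
        exact h
      · rintro ⟨⟨a, b⟩, h⟩ hp ⟨⟨a', b'⟩, h'⟩ hp' e
        obtain rfl : a = x := hp
        obtain rfl : a' = a := hp'
        obtain rfl : b = b' := e
        rfl)
  have hemb : ∀ j, MeasurableEmbedding (fun p : B j => p.1.1.1) := fun j => by
    have := (hB j).1.standardBorel
    exact Measurable.measurableEmbedding
      (measurable_fst.comp (measurable_subtype_coe.comp measurable_subtype_coe))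
      fun p q h => Subtype.ext ((hB j).2 p.2 q.2 h)
  refine ⟨fun j => Function.extend (fun p : B j => p.1.1.1) (fun p => p.1.1.2) id, fun j =>
    (hemb j).measurable_extend
      (measurable_snd.comp (measurable_subtype_coe.comp measurable_subtype_coe)) measurable_id,
    fun x y => ⟨fun h => ?_, ?_⟩⟩
  · obtain ⟨j, hj⟩ := mem_iUnion.1 (hcov (mem_univ ⟨(x, y), h⟩))
    exact ⟨j, (hemb j).injective.extend_apply _ _ ⟨⟨(x, y), h⟩, hj⟩⟩
  · rintro ⟨j, rfl⟩
    by_cases hx : ∃ p : B j, p.1.1.1 = x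
    · obtain ⟨p, rfl⟩ := hx
      simp only
      rw [(hemb j).injective.extend_apply]
      exact p.1.2
    · simp only
      rw [Function.extend_apply' _ _ _ hx]
      exact hr x

end Pool.Agent.Lib.LusinNovikov
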